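import Pool.Agent.H82.NodalLow

/-!
Full answer: on every two-dimensional Neumann eigenspace of the square the maximal nodal count is
attained at one of the special angles `0, π/4, π/2, 3π/4, π`.
-/

namespace Pool.Agent.Results.MP_52cbbb_an.MaxNodalCount

open Real Set Pool.Agent.H82.Nodal

theorem U_Phi (p q : ℕ) (θ : ℝ) : Phi p q θ = U p q (cos θ) (sin θ) := rfl

theorem U_swap (p q : ℕ) (α β : ℝ) : (fun z : ℝ × ℝ => U p q α β z.swap) = U p q β α := by
  ext ⟨x, y⟩
  simp only [U, cc, Prod.swap_prod_mk]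
  ring

/-- `N` bounds the nodal counts of all nonzero combinations as soon as it bounds the three special
ones -/
theorem bound {p q : ℕ} (hpq : q < p) {N : ℕ∞} (h0 : nodalCount (Phi p q 0) ≤ N)
    (h1 : nodalCount (Phi p q (π / 4)) ≤ N) (h3 : nodalCount (Phi p q (3 * π / 4)) ≤ N)
    {α β : ℝ} (hne : ¬ (α = 0 ∧ β = 0)) : nodalCount (U p q α β) ≤ N := by
  have hcc : Phi p q 0 = cc p q := by
    ext z; simp [Phi, cc]
  have hbase : ((p + 1) * (q + 1) : ℕ) ≤ N := by
    rw [hcc] at h0
    exact (le_nodalCount_cc p q).trans h0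
  rcases lt_trichotomy |β| |α| with h | h | h
  · exact (nodalCount_le hpq h).trans hbase
  · have hs : √2 / 2 ≠ (0 : ℝ) := by positivity
    rcases abs_eq_abs.1 h with h' | h'
    · subst h'
      refine le_trans (le_of_eq ?_) h1
      apply nodalCount_congr
      intro z
      have hβ : β ≠ 0 := fun h => hne ⟨h, h⟩
      have e : U p q β β z = (β / (√2 / 2)) * Phi p q (π / 4) z := by
        simp only [U, Phi, cc, cos_pi_div_four, sin_pi_div_four]
        field_simp
      rw [e]
      simp only [ne_eq, mul_eq_zero, div_eq_zero_iff, hβ, hs, false_or]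
    · subst h'
      refine le_trans (le_of_eq ?_) h3
      apply nodalCount_congr
      intro z
      have hα : α ≠ 0 := fun h => hne ⟨h, by rw [h, neg_zero]⟩
      have hc : cos (3 * π / 4) = - (√2 / 2) := by
        rw [show 3 * π / 4 = π - π / 4 by ring, cos_pi_sub, cos_pi_div_four]
      have hs' : sin (3 * π / 4) = √2 / 2 := by
        rw [show 3 * π / 4 = π - π / 4 by ring, sin_pi_sub, sin_pi_div_four]
      have e : U p q α (-α) z = (-α / (√2 / 2)) * Phi p q (3 * π / 4) z := by
        simp only [U, Phi, cc, hc, hs']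
        field_simp
        ring
      rw [e]
      simp only [ne_eq, mul_eq_zero, div_eq_zero_iff, neg_eq_zero, hα, hs, false_or]
  · have : nodalCount (U p q α β) = nodalCount (U p q β α) := by
      rw [← nodalCount_swap (U p q α β), U_swap]
    rw [this]
    exact (nodalCount_le hpq h).trans hbase

/-- For every `lam` whose Neumann eigenspace on the square is two-dimensional there are unique
`p > q ≥ 0` describing it, and the maximum of the number of nodal domains over the nonzero
eigenfunctions is attained at some `Φ^θ_{p,q}` with `θ ∈ {0, π/4, π/2, 3π/4, π}`. -/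
theorem result (lam : ℝ) (hdim : Module.finrank ℝ (eigenspace lam) = 2) :
    ∃ p q : ℕ, q < p ∧
      (∀ m n : ℕ, (m : ℝ) ^ 2 + (n : ℝ) ^ 2 = lam ↔ (m = p ∧ n = q) ∨ (m = q ∧ n = p)) ∧
      ∃ θ ∈ ({0, π / 4, π / 2, 3 * π / 4, π} : Set ℝ),
        IsGreatest {N | ∃ u ∈ eigenspace lam, u ≠ 0 ∧ N = nodalCount u}
          (nodalCount (Phi p q θ)) := by
  obtain ⟨p, q, hpq, hiff⟩ := exists_pair hdim
  refine ⟨p, q, hpq, hiff, ?_⟩
  -- the best of the three special angles
  obtain ⟨θ, hθ, h0, h1, h3⟩ : ∃ θ ∈ ({0, π / 4, π / 2, 3 * π / 4, π} : Set ℝ),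
      nodalCount (Phi p q 0) ≤ nodalCount (Phi p q θ) ∧
      nodalCount (Phi p q (π / 4)) ≤ nodalCount (Phi p q θ) ∧
      nodalCount (Phi p q (3 * π / 4)) ≤ nodalCount (Phi p q θ) := by
    rcases le_total (nodalCount (Phi p q 0)) (nodalCount (Phi p q (π / 4))) with a | a
    · rcases le_total (nodalCount (Phi p q (π / 4))) (nodalCount (Phi p q (3 * π / 4))) with b | b
      · exact ⟨3 * π / 4, by simp, a.trans b, b, le_rfl⟩
      · exact ⟨π / 4, by simp, a, le_rfl, b⟩
    · rcases le_total (nodalCount (Phi p q 0)) (nodalCount (Phi p q (3 * π / 4))) with b | b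
      · exact ⟨3 * π / 4, by simp, b, a.trans b, le_rfl⟩
      · exact ⟨0, by simp, le_rfl, a, b⟩
  refine ⟨θ, hθ, ⟨Phi p q θ, ?_, ?_, rfl⟩, ?_⟩
  · rw [eigenspace_pair hiff, Submodule.mem_span_pair]
    exact ⟨cos θ, sin θ, by ext z; simp [Phi, cc]⟩
  · intro h
    rw [U_Phi] at h
    obtain ⟨hc, hs⟩ := U_ne_zero hpq h
    have := sin_sq_add_cos_sq θ
    rw [hc, hs] at this
    norm_num at this
  · rintro N ⟨u, hu, hne, rfl⟩
    rw [eigenspace_pair hiff, Submodule.mem_span_pair] at hu
    obtain ⟨α, β, rfl⟩ := hu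
    have hU : α • cc p q + β • cc q p = U p q α β := by
      ext z; simp [U]
    rw [hU] at hne ⊢
    apply bound hpq h0 h1 h3
    rintro ⟨rfl, rfl⟩
    apply hne
    ext z; simp [U]

end Pool.Agent.Results.MP_52cbbb_an.MaxNodalCount
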